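import Pool.Agent.Dcs.Fnl

/-!
# Moment curve exponential sums on curved hypersurfaces

The conjectured inequality of MP_843cd6_an in the full range `p ≤ d (d - 1)`, `d = m + 1`, for every compact piece of a `C²`
graph hypersurface of `ℝ^d` with invertible Hessian.
-/

set_option autoImplicit false

namespace Pool.Agent.Results.MP_843cd6_an.CurvedHypersurface

open MeasureTheory

/-- Let `d = m + 1 ≥ 2`, let `K ⊆ ℝ^m` be compact and let the hypersurface be the graph, over the coordinates other than the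
`j`-th, of a `C²` function `φ` whose Hessian is invertible at every point of `K`.  Then the inequality holds for all
`0 < p ≤ d (d - 1)`. -/
theorem result : ∀ (m : ℕ), 1 ≤ m → ∀ (j : Fin (m + 1)) (φ : (Fin m → ℝ) → ℝ), ContDiff ℝ 2 φ →
    ∀ K : Set (Fin m → ℝ), IsCompact K →
      (∀ y ∈ K, Function.Injective (fderiv ℝ (fderiv ℝ φ) y)) →
        ∀ p : ℝ, 0 < p → p ≤ ((m + 1 : ℝ) * (m : ℝ)) →
          ∀ ε : ℝ, 0 < ε → ∃ C : ℝ, ∀ N : ℕ, 1 ≤ N → ∀ a : ℤ → ℂ,
            (∫ y in K, ‖∑ n ∈ Finset.Icc (-(N : ℤ)) N,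
                a n * Complex.exp (2 * (Real.pi : ℂ) * Complex.I *
                  (((∑ k : Fin (m + 1), ((n : ℝ) ^ (k.val + 1)) *
                      (Fin.insertNth (α := fun _ => ℝ) j (φ y) y) k : ℝ)) : ℂ))‖ ^ p) ^ (1 / p)
              ≤ C * (N : ℝ) ^ ε * Real.sqrt (∑ n ∈ Finset.Icc (-(N : ℤ)) N, ‖a n‖ ^ 2) := by
  intro m hm j φ hφ K hK h p hp hp' ε hε
  exact Pool.Agent.Dcs.main_thm m hm j hφ hK h hp hp' hε

end Pool.Agent.Results.MP_843cd6_an.CurvedHypersurface
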